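import Pool.Agent.H70.UN.Targets2

/-! # PBW (board `uni_modules`), second copy (helper91) -/

set_option autoImplicit false

namespace Pool.Agent.H91.UN

open Matrix Finset H43.PS Pool.Agent.H70.UN

theorem prod_inv_sg {Q p : ℝ} (hQ : 0 < Q) (hp : 1 < p) {N : ℕ} (s : Fin N → ℝ)
    (hs : ∀ k, 1 ≤ s k) (T : Finset (Fin N)) :
    ∏ k ∈ T, ((sg Q p (s k))⁻¹) ^ 2 =
      ((Q / (p - 1)) ^ T.card * (∏ k ∈ T, s k)⁻¹) ^ (1 / p) := by
  have hp0 : 0 < p := by linarith
  have hp1 : 0 < p - 1 := by linarith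
  have h1 : ∀ k ∈ T, ((sg Q p (s k))⁻¹) ^ 2 = ((Q / (p - 1)) * (s k)⁻¹) ^ (1 / p) := by
    intro k _
    have hsk : 0 < s k := lt_of_lt_of_le one_pos (hs k)
    have h2 : 0 ≤ (p - 1) / Q * s k := by positivity
    unfold sg
    rw [← Real.inv_rpow h2, ← Real.rpow_natCast, ← Real.rpow_mul (inv_nonneg.2 h2)]
    congr 1
    · rw [mul_inv, inv_div]
    · push_cast
      field_simp
  rw [Finset.prod_congr rfl h1, Real.finsetProd_rpow]
  · rw [Finset.prod_mul_distrib, Finset.prod_const, Finset.prod_inv_distrib]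
  · intro k _
    have hsk : 0 < s k := lt_of_lt_of_le one_pos (hs k)
    positivity

theorem pf_PBW (hVEC : T_VEC) (hVLM : T_VLMW) : T_PBW := by
  intro Θ _ _ p hp hp2 hΘ N q d hq hd ι _ _ G S s D M K pb rho hG hS hs hD hPF hK hpb hsum hrho
  obtain ⟨Q, hQ⟩ : ∃ Q : ℝ, Q = (Fintype.card Θ : ℝ) := ⟨_, rfl⟩
  rw [← hQ] at hrho ⊢
  have hQ1 : 1 ≤ Q := by
    rw [hQ]
    exact_mod_cast hΘ
  have hQ0 : 0 < Q := by linarith
  have hp0 : 0 < p := by linarith
  have hp1 : 0 < p - 1 := by linarith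
  have hs0 : ∀ k, 0 < s k := fun k => lt_of_lt_of_le one_pos (hs k).1
  obtain ⟨La, hLa⟩ : ∃ La, La = ∏ k, s k := ⟨_, rfl⟩
  have hLa1 : 1 ≤ La := by
    rw [hLa]
    exact Finset.prod_induction s (fun x => (1 : ℝ) ≤ x) (fun a b ha hb => by nlinarith) le_rfl
      (fun k _ => (hs k).1)
  have hLa0 : 0 < La := by linarith
  obtain ⟨lam, hlam⟩ : ∃ lam, lam = Real.sqrt ((q : ℝ) ^ (N - d)) := ⟨_, rfl⟩
  have hqR : (1 : ℝ) < q := by exact_mod_cast hq
  have hlam1 : 1 ≤ lam := by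
    rw [hlam, Real.one_le_sqrt]
    exact one_le_pow₀ hqR.le
  have hlam0 : 0 < lam := by linarith
  have hlamsq : lam ^ 2 = (q : ℝ) ^ (N - d) := by
    rw [hlam, Real.sq_sqrt (by positivity)]
  obtain ⟨w0, hw0⟩ : ∃ w0, w0 = Real.sqrt La := ⟨_, rfl⟩
  have hw00 : 0 < w0 := by
    rw [hw0]
    exact Real.sqrt_pos.2 hLa0
  have hw0sq : w0 ^ 2 = La := by
    rw [hw0, Real.sq_sqrt hLa0.le]
  obtain ⟨UU, hUU⟩ : ∃ UU : Finset (Finset (Fin N)), UU = univ.filter
    (fun T : Finset (Fin N) => ∏ k ∈ T, s k ≤ w0 / lam) := ⟨_, rfl⟩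
  obtain ⟨τ, hτ⟩ : ∃ τ : ℝ, τ = (Q / (p - 1)) ^ N * lam * K ^ N * pb ^ (1 / (2 * p)) := ⟨_, rfl⟩
  have hc1 : 1 ≤ Q / (p - 1) := by
    rw [le_div_iff₀ hp1]
    linarith
  have hτ0 : 0 ≤ τ := by
    rw [hτ]
    positivity
  have hK0 : 0 < K := by linarith
  -- the high part
  have hhigh : ∀ T : Finset (Fin N), T ∉ UU →
      ∏ k ∈ T, ((sg Q p (s k))⁻¹) ^ 2 ≤ τ := by
    intro T hT
    rw [hUU, mem_filter, not_and] at hT
    have hT1 : w0 / lam < ∏ k ∈ T, s k := not_le.1 (hT (mem_univ _))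
    have hT0 : 0 < w0 / lam := by positivity
    rw [prod_inv_sg hQ0 hp s (fun k => (hs k).1) T]
    have h1 : (∏ k ∈ T, s k)⁻¹ ≤ lam * w0⁻¹ := by
      calc (∏ k ∈ T, s k)⁻¹ ≤ (w0 / lam)⁻¹ := inv_anti₀ hT0 hT1.le
        _ = lam * w0⁻¹ := by rw [inv_div, div_eq_mul_inv]
    have h2 : (Q / (p - 1)) ^ T.card ≤ (Q / (p - 1)) ^ N := by
      apply pow_le_pow_right₀ hc1
      exact (card_le_univ T).trans_eq (Fintype.card_fin N)
    have h3 : 0 < ∏ k ∈ T, s k := prod_pos (fun k _ => hs0 k)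
    have h4 : (Q / (p - 1)) ^ T.card * (∏ k ∈ T, s k)⁻¹ ≤
        ((Q / (p - 1)) ^ N * lam) * w0⁻¹ := by
      rw [mul_assoc]
      exact mul_le_mul h2 h1 (by positivity) (by positivity)
    have h5 : 1 ≤ (Q / (p - 1)) ^ N * lam := by
      have := one_le_pow₀ (n := N) hc1
      nlinarith
    have h6 : (0 : ℝ) ≤ 1 / p := by positivity
    have h7 : (1 : ℝ) / p ≤ 1 := by
      rw [div_le_one hp0]
      exact hp.le
    have h8 : w0⁻¹ ^ (1 / p) ≤ K ^ N * pb ^ (1 / (2 * p)) := by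
      have h9 : w0⁻¹ = (La⁻¹) ^ ((1 : ℝ) / 2) := by
        rw [hw0, Real.sqrt_eq_rpow, Real.inv_rpow hLa0.le]
      have h10 : La⁻¹ ≤ K ^ N * pb := by
        rw [hLa, ← Finset.prod_inv_distrib]
        exact hsum
      have h11 : (1 : ℝ) / 2 * (1 / p) = 1 / (2 * p) := by field_simp
      rw [h9, ← Real.rpow_mul (inv_nonneg.2 hLa0.le), h11]
      calc La⁻¹ ^ (1 / (2 * p)) ≤ (K ^ N * pb) ^ (1 / (2 * p)) :=
            Real.rpow_le_rpow (inv_nonneg.2 hLa0.le) h10 (by positivity)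
        _ = (K ^ N) ^ (1 / (2 * p)) * pb ^ (1 / (2 * p)) :=
            Real.mul_rpow (by positivity) hpb.le
        _ ≤ K ^ N * pb ^ (1 / (2 * p)) := by
            refine mul_le_mul_of_nonneg_right ?_ (Real.rpow_nonneg hpb.le _)
            calc (K ^ N) ^ (1 / (2 * p)) ≤ (K ^ N) ^ (1 : ℝ) := by
                  apply Real.rpow_le_rpow_of_exponent_le (one_le_pow₀ hK)
                  rw [div_le_one (by positivity)]
                  linarith
              _ = K ^ N := Real.rpow_one _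
    calc ((Q / (p - 1)) ^ T.card * (∏ k ∈ T, s k)⁻¹) ^ (1 / p)
        ≤ (((Q / (p - 1)) ^ N * lam) * w0⁻¹) ^ (1 / p) :=
          Real.rpow_le_rpow (by positivity) h4 h6
      _ = ((Q / (p - 1)) ^ N * lam) ^ (1 / p) * w0⁻¹ ^ (1 / p) :=
          Real.mul_rpow (by positivity) (by positivity)
      _ ≤ ((Q / (p - 1)) ^ N * lam) * (K ^ N * pb ^ (1 / (2 * p))) := by
          refine mul_le_mul ?_ h8 (Real.rpow_nonneg (by positivity) _) (by positivity)
          calc ((Q / (p - 1)) ^ N * lam) ^ (1 / p) ≤ ((Q / (p - 1)) ^ N * lam) ^ (1 : ℝ) :=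
                Real.rpow_le_rpow_of_exponent_le h5 h7
            _ = (Q / (p - 1)) ^ N * lam := Real.rpow_one _
      _ = τ := by
          rw [hτ]
          ring
  -- unions
  have hun : ∀ T ∈ UU, ∀ T' ∈ UU, (T ∪ T').card ≤ d := by
    intro T hT T' hT'
    rw [hUU, mem_filter] at hT hT'
    have h1 : (∏ k ∈ T ∪ T', s k) * ∏ k ∈ T ∩ T', s k = (∏ k ∈ T, s k) * ∏ k ∈ T', s k :=
      prod_union_inter
    have h2 : 1 ≤ ∏ k ∈ T ∩ T', s k :=
      Finset.prod_induction s (fun x => (1 : ℝ) ≤ x) (fun a b ha hb => by nlinarith) le_rfl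
        (fun k _ => (hs k).1)
    have h3 : 0 < ∏ k ∈ T ∪ T', s k := prod_pos (fun k _ => hs0 k)
    have h3a : 0 < ∏ k ∈ T, s k := prod_pos (fun k _ => hs0 k)
    have h3b : 0 < ∏ k ∈ T', s k := prod_pos (fun k _ => hs0 k)
    have h4 : ∏ k ∈ T ∪ T', s k ≤ (w0 / lam) * (w0 / lam) := by
      calc ∏ k ∈ T ∪ T', s k ≤ (∏ k ∈ T ∪ T', s k) * ∏ k ∈ T ∩ T', s k :=
            le_mul_of_one_le_right h3.le h2
        _ = (∏ k ∈ T, s k) * ∏ k ∈ T', s k := h1
        _ ≤ (w0 / lam) * (w0 / lam) := mul_le_mul hT.2 hT'.2 h3b.le (by positivity)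
    have h5 : (w0 / lam) * (w0 / lam) * lam ^ 2 = La := by
      rw [← hw0sq]
      field_simp
    have h6 : (∏ k ∈ T ∪ T', s k) * (q : ℝ) ^ (N - d) ≤ La := by
      rw [← hlamsq, ← h5]
      exact mul_le_mul_of_nonneg_right h4 (by positivity)
    have h7 : La = (∏ k ∈ T ∪ T', s k) * ∏ k ∈ (T ∪ T')ᶜ, s k := by
      rw [hLa, Finset.prod_mul_prod_compl]
    rw [h7] at h6
    have h8 : (q : ℝ) ^ (N - d) ≤ ∏ k ∈ (T ∪ T')ᶜ, s k := le_of_mul_le_mul_left h6 h3
    have h9 : ∏ k ∈ (T ∪ T')ᶜ, s k ≤ (q : ℝ) ^ ((T ∪ T')ᶜ).card := by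
      rw [← Finset.prod_const]
      exact Finset.prod_le_prod (fun k _ => (hs0 k).le) (fun k _ => (hs k).2)
    have h10 : (q : ℝ) ^ (N - d) ≤ (q : ℝ) ^ ((T ∪ T')ᶜ).card := h8.trans h9
    have h11 : N - d ≤ ((T ∪ T')ᶜ).card := (pow_le_pow_iff_right₀ hqR).1 h10
    have h12 : ((T ∪ T')ᶜ).card = N - (T ∪ T').card := by
      rw [Finset.card_compl, Fintype.card_fin]
    have h13 : (T ∪ T').card ≤ N := (card_le_univ _).trans_eq (Fintype.card_fin N)
    omega
  obtain ⟨μ, _, w, hw1, hw2⟩ := hVEC (Fin N → Option Θ) ι G S hG hS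
  have hsq : ∀ z, rho z = ∑ m, (∑ u, czw (fun k => sg Q p (s k)) z u * w u m) ^ 2 := by
    intro z
    rw [hrho z]
    obtain ⟨c, hc⟩ : ∃ c : (Fin N → Option Θ) → ℝ, c = czw (fun k => sg Q p (s k)) z := ⟨_, rfl⟩
    simp only [← hc]
    calc ∑ x, ∑ y, (∑ u, ∑ u', c u * c u' * G (u, x) (u', y)) * S y x
        = ∑ x, ∑ y, ∑ u, ∑ u', c u * c u' * (G (u, x) (u', y) * S y x) := by
          refine Finset.sum_congr rfl fun x _ => Finset.sum_congr rfl fun y _ => ?_
          rw [Finset.sum_mul]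
          refine Finset.sum_congr rfl fun u _ => ?_
          rw [Finset.sum_mul]
          refine Finset.sum_congr rfl fun u' _ => ?_
          ring
      _ = ∑ u, ∑ u', c u * c u' * ∑ x, ∑ y, G (u, x) (u', y) * S y x := by
          have e1 : ∀ x, ∑ y, ∑ u, ∑ u', c u * c u' * (G (u, x) (u', y) * S y x) =
              ∑ u, ∑ u', ∑ y, c u * c u' * (G (u, x) (u', y) * S y x) := by
            intro x
            rw [Finset.sum_comm]
            refine Finset.sum_congr rfl fun u _ => ?_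
            rw [Finset.sum_comm]
          simp only [e1]
          rw [Finset.sum_comm]
          refine Finset.sum_congr rfl fun u _ => ?_
          rw [Finset.sum_comm]
          refine Finset.sum_congr rfl fun u' _ => ?_
          rw [Finset.mul_sum]
          refine Finset.sum_congr rfl fun x _ => ?_
          rw [Finset.mul_sum]
      _ = ∑ u, ∑ u', ∑ m, (c u * w u m) * (c u' * w u' m) := by
          refine Finset.sum_congr rfl fun u _ => Finset.sum_congr rfl fun u' _ => ?_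
          rw [hw1, Finset.mul_sum]
          refine Finset.sum_congr rfl fun m _ => ?_
          ring
      _ = ∑ m, ∑ u, ∑ u', (c u * w u m) * (c u' * w u' m) := by
          have e1 : ∀ u, ∑ u', ∑ m, (c u * w u m) * (c u' * w u' m) =
              ∑ m, ∑ u', (c u * w u m) * (c u' * w u' m) := fun u => Finset.sum_comm
          simp only [e1]
          rw [Finset.sum_comm]
      _ = ∑ m, (∑ u, c u * w u m) ^ 2 := by
          refine Finset.sum_congr rfl fun m _ => ?_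
          rw [pow_two, Finset.sum_mul_sum]
  have hσ : ∀ k, 0 < sg Q p (s k) := by
    intro k
    unfold sg
    have := hs0 k
    positivity
  have key := hVLM Θ N d (fun k => sg Q p (s k)) UU τ M μ w D
    (HX Q p K pb N d q * (G.trace * S.trace)) hΘ hτ0 hσ hhigh hun hD hPF (by
      have h1 : HX Q p K pb N d q = 2 ^ N * τ := by
        unfold HX
        rw [hτ, hlam]
        ring
      rw [h1]
      exact mul_le_mul_of_nonneg_left hw2 (by positivity))
  have hr : rho = fun z => ∑ m, (∑ u, czw (fun k => sg Q p (s k)) z u * w u m) ^ 2 := funext hsq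
  rw [hr]
  exact key

end Pool.Agent.H91.UN
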